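import Mathlib

/-!
# Collatz-invariant functions with a finite 2-kernel: first lemmas
`e = 2` corresponds to `3x+1`, `e = 1` to `3x-1`: for odd `y = 2n+1`, `(3y ± 1)/2 = 3n + e`.
-/

set_option autoImplicit false

namespace Pool.Agent.H966R2.Clz

/-- invariance of `f` under `2n ↦ n`, `2n+1 ↦ 3n+e` -/
structure Inv (e : ℕ) (f : ℕ → Prop) : Prop where
  two : ∀ n, f (2 * n) = f n
  odd : ∀ n, f (2 * n + 1) = f (3 * n + e)

variable {e : ℕ} {f : ℕ → Prop}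

theorem Inv.two_pow (h : Inv e f) (k n : ℕ) : f (2 ^ k * n) = f n := by
  induction k with
  | zero => simp
  | succ k ih => rw [pow_succ, mul_assoc, mul_comm 2 n, ← mul_assoc, mul_comm _ 2, h.two, ih]

/-- backward/forward step: `3 y + (2e - 3) = 2^(j+1) n` -/
theorem Inv.step (h : Inv e f) {y n j : ℕ} (hy : 3 * y + 2 * e = 2 ^ (j + 1) * n + 3) :
    f y = f n := by
  have h1 : y = 2 * (y / 2) + 1 := by
    rw [pow_succ] at hy
    have : 2 ^ j * 2 * n = 2 * (2 ^ j * n) := by ring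
    omega
  have h2 : 3 * (y / 2) + e = 2 ^ j * n := by
    rw [pow_succ] at hy
    have : 2 ^ j * 2 * n = 2 * (2 ^ j * n) := by ring
    omega
  rw [h1, h.odd, h2, h.two_pow]

/-- the 2-kernel -/
def ker2 (f : ℕ → Prop) : Set (ℕ → Prop) :=
  {g | ∃ k m, m < 2 ^ k ∧ g = fun q => f (2 ^ k * q + m)}

theorem exists_j (he : e = 1 ∨ e = 2) (b : ℕ) (hb : ¬ 3 ∣ b) :
    ∃ j b1, j < 6 ∧ 3 * b1 + 2 * e = 2 ^ (j + 1) * b + 3 ∧ ¬ 3 ∣ b1 := by
  have key : ∀ r : Fin 9, ¬ 3 ∣ r.val → ∀ e ∈ [1, 2], ∃ j : Fin 6,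
      (2 ^ (j.val + 1) * r.val + 3 + 9 - 2 * e) % 9 = 3 ∨
      (2 ^ (j.val + 1) * r.val + 3 + 9 - 2 * e) % 9 = 6 := by decide
  obtain ⟨j, hj⟩ := key ⟨b % 9, Nat.mod_lt _ (by norm_num)⟩ (by
    show ¬ 3 ∣ b % 9
    omega) e (by rcases he with rfl | rfl <;> simp)
  have h1 : (2 ^ (j.val + 1) * b) % 9 = (2 ^ (j.val + 1) * (b % 9)) % 9 := by
    rw [Nat.mul_mod, Nat.mul_mod (2 ^ (j.val + 1)) (b % 9), Nat.mod_mod]
  set X := 2 ^ (j.val + 1) * b with hX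
  set Y := 2 ^ (j.val + 1) * (b % 9) with hY
  have hb1 : 1 ≤ X := Nat.mul_pos (by positivity) (by omega)
  have hX2 : 2 ≤ X := by
    have : 2 ≤ 2 ^ (j.val + 1) := by
      calc 2 = 2 ^ 1 := by norm_num
        _ ≤ 2 ^ (j.val + 1) := Nat.pow_le_pow_right (by norm_num) (by omega)
    have hb0 : 1 ≤ b := by omega
    calc 2 = 2 * 1 := by norm_num
      _ ≤ 2 ^ (j.val + 1) * b := Nat.mul_le_mul this hb0
  have hj' : (Y + 3 + 9 - 2 * e) % 9 = 3 ∨ (Y + 3 + 9 - 2 * e) % 9 = 6 := hj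
  refine ⟨j.val, (X + 3 - 2 * e) / 3, j.2, ?_, ?_⟩
  · rcases he with rfl | rfl <;> omega
  · rcases he with rfl | rfl <;> omega

theorem adm (he : e = 1 ∨ e = 2) (h : Inv e f) (a : ℕ) : ∀ i b : ℕ, b < 2 ^ i * 3 ^ a →
    (a = 0 ∨ ¬ 3 ∣ b) → (fun q => f (2 ^ i * 3 ^ a * q + b)) ∈ ker2 f := by
  induction a with
  | zero =>
    intro i b hb _
    refine ⟨i, b, by simpa using hb, ?_⟩
    simp
  | succ a ih =>
    intro i b hb hb3
    have hb3' : ¬ 3 ∣ b := by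
      rcases hb3 with h | h
      · omega
      · exact h
    obtain ⟨j, b1, _, h1, h2⟩ := exists_j he b hb3'
    have h3 : b1 < 2 ^ (i + j + 1) * 3 ^ a := by
      have h4 : 2 ^ (j + 1) * b + 2 ^ (j + 1) ≤ 2 ^ (j + 1) * (2 ^ i * 3 ^ (a + 1)) := by
        have : b + 1 ≤ 2 ^ i * 3 ^ (a + 1) := hb
        calc 2 ^ (j + 1) * b + 2 ^ (j + 1) = 2 ^ (j + 1) * (b + 1) := by ring
          _ ≤ _ := Nat.mul_le_mul_left _ this
      have h5 : 2 ^ (j + 1) * (2 ^ i * 3 ^ (a + 1)) = 3 * (2 ^ (i + j + 1) * 3 ^ a) := by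
        rw [pow_succ 3 a, show i + j + 1 = i + (j + 1) by ring, pow_add 2 i]
        ring
      have h6 : 2 ≤ 2 ^ (j + 1) := by
        calc 2 = 2 ^ 1 := by norm_num
          _ ≤ 2 ^ (j + 1) := Nat.pow_le_pow_right (by norm_num) (by omega)
      omega
    have h7 := ih (i + j + 1) b1 h3 (Or.inr h2)
    have h8 : (fun q => f (2 ^ (i + j + 1) * 3 ^ a * q + b1)) =
        fun q => f (2 ^ i * 3 ^ (a + 1) * q + b) := by
      funext q
      refine h.step (j := j) ?_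
      have h9 : 2 ^ (j + 1) * (2 ^ i * 3 ^ (a + 1) * q + b) + 3 =
          3 * (2 ^ (i + j + 1) * 3 ^ a * q) + (2 ^ (j + 1) * b + 3) := by
        rw [pow_succ 3 a, show i + j + 1 = i + (j + 1) by ring, pow_add 2 i]
        ring
      rw [h9, ← h1]
      ring
    rw [h8] at h7
    exact h7

/-- `x` and `x'` have the same values of all kernel functions and the same residue mod 3 -/
def Rel (f : ℕ → Prop) (x x' : ℕ) : Prop := (∀ g ∈ ker2 f, g x = g x') ∧ x % 3 = x' % 3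

/-- class map -/
def cls (f : ℕ → Prop) (x : ℕ) : (↥(ker2 f) → Prop) × Fin 3 :=
  (fun g => g.1 x, ⟨x % 3, Nat.mod_lt _ (by norm_num)⟩)

theorem rel_of_cls {x x' : ℕ} (h : cls f x = cls f x') : Rel f x x' := by
  have h1 := congrArg Prod.fst h
  have h2 := congrArg Prod.snd h
  refine ⟨fun g hg => congrFun h1 ⟨g, hg⟩, ?_⟩
  exact congrArg Fin.val h2

theorem pigeon (hfin : (ker2 f).Finite) : ∃ N, ∀ u0, ∃ u u', u0 ≤ u ∧ u < u' ∧ u' ≤ u0 + N ∧
    Rel f u u' := by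
  classical
  have : Finite ↥(ker2 f) := hfin
  have : Finite ((↥(ker2 f) → Prop) × Fin 3) := inferInstance
  let := Fintype.ofFinite ((↥(ker2 f) → Prop) × Fin 3)
  refine ⟨Fintype.card ((↥(ker2 f) → Prop) × Fin 3), fun u0 => ?_⟩
  obtain ⟨i, j, hij, h⟩ := Fintype.exists_ne_map_eq_of_card_lt
    (fun i : Fin (Fintype.card ((↥(ker2 f) → Prop) × Fin 3) + 1) => cls f (u0 + i.val))
    (by simp)
  have hij' : i.val ≠ j.val := fun h => hij (Fin.ext h)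
  rcases lt_or_gt_of_ne hij' with h1 | h1
  · exact ⟨u0 + i, u0 + j, by omega, by omega, by omega, rel_of_cls h⟩
  · exact ⟨u0 + j, u0 + i, by omega, by omega, by omega, rel_of_cls h.symm⟩

theorem partner (hfin : (ker2 f).Finite) : ∃ X0, 1 ≤ X0 ∧ ∀ x, X0 ≤ x → ∃ x', x < x' ∧
    Rel f x x' := by
  classical
  have : Finite ↥(ker2 f) := hfin
  have : Finite ((↥(ker2 f) → Prop) × Fin 3) := inferInstance
  have h1 : {x | ¬ ∃ x', x < x' ∧ Rel f x x'}.Finite := by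
    refine Set.Finite.of_finite_image (f := cls f) (Set.toFinite _) ?_
    intro x hx y hy hxy
    by_contra hne
    rcases lt_or_gt_of_ne hne with h | h
    · exact hx ⟨y, h, rel_of_cls hxy⟩
    · exact hy ⟨x, h, rel_of_cls hxy.symm⟩
  obtain ⟨B, hB⟩ := h1.bddAbove
  refine ⟨B + 1, by omega, fun x hx => ?_⟩
  by_contra hcon
  have := hB hcon
  omega

/-- `f` restricted to non-multiples of 3 -/
def FF (f : ℕ → Prop) (z : ℕ) : Prop := ¬ 3 ∣ z ∧ f z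

theorem FF_two_pow (h : Inv e f) (k z : ℕ) : FF f (2 ^ k * z) = FF f z := by
  unfold FF
  rw [h.two_pow]
  have : 3 ∣ 2 ^ k * z ↔ 3 ∣ z := by
    constructor
    · intro h1
      exact (Nat.Coprime.dvd_of_dvd_mul_left (Nat.Coprime.pow_right k (by norm_num)) h1)
    · exact fun h1 => h1.mul_left _
  rw [this]

theorem rel2 {x x' : ℕ} (hr : Rel f x x') (m y : ℕ) (hy : y < 2 ^ m) :
    FF f (2 ^ m * x + y) = FF f (2 ^ m * x' + y) := by
  have h1 : f (2 ^ m * x + y) = f (2 ^ m * x' + y) := hr.1 _ ⟨m, y, hy, rfl⟩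
  unfold FF
  rw [h1]
  have h2 : (2 ^ m * x + y) % 3 = (2 ^ m * x' + y) % 3 := by
    rw [Nat.add_mod, Nat.mul_mod, hr.2, ← Nat.mul_mod, ← Nat.add_mod]
  have : 3 ∣ 2 ^ m * x + y ↔ 3 ∣ 2 ^ m * x' + y := by
    rw [Nat.dvd_iff_mod_eq_zero, Nat.dvd_iff_mod_eq_zero, h2]
  rw [this]

theorem rel3 (he : e = 1 ∨ e = 2) (h : Inv e f) {x x' : ℕ} (hr : Rel f x x') (n y : ℕ)
    (hn : 1 ≤ n) (hy : y < 3 ^ n) : FF f (3 ^ n * x + y) = FF f (3 ^ n * x' + y) := by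
  have h3 : (3 : ℕ) ∣ 3 ^ n := dvd_pow_self 3 (by omega)
  have hd : ∀ w, 3 ∣ 3 ^ n * w + y ↔ 3 ∣ y := fun w =>
    (Nat.dvd_add_right (h3.mul_right w))
  unfold FF
  rw [hd, hd]
  by_cases hy3 : 3 ∣ y
  · simp [hy3]
  · have h1 := adm he h n 0 y (by simpa using hy) (Or.inr hy3)
    have h2 := hr.1 _ h1
    simp only [pow_zero, one_mul] at h2
    rw [h2]

end Pool.Agent.H966R2.Clz
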