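import Pool.Agent.H966R2.Clz.Period

/-!
# Collatz-invariant functions with finite 2-kernel are constant
-/

set_option autoImplicit false

namespace Pool.Agent.H966R2.Clz

variable {e : ℕ} {f : ℕ → Prop}

theorem chain (he : e = 1 ∨ e = 2) (h : Inv e f) (A : ℕ) : ∃ C, ∀ n, ¬ 3 ∣ n →
    ∃ z J, J ≤ 6 * A ∧ ¬ 3 ∣ z ∧ (∀ k, f (n + 3 ^ A * k) = f (z + 2 ^ J * k)) ∧
      3 ^ A * z ≤ 2 ^ J * n + C ∧ 2 ^ J * n ≤ 3 ^ A * z + C := by
  induction A with
  | zero =>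
    refine ⟨0, fun n hn => ⟨n, 0, le_rfl, hn, fun k => ?_, ?_, ?_⟩⟩
    · simp
    · simp
    · simp
  | succ A ih =>
    obtain ⟨C, hC⟩ := ih
    refine ⟨3 * C + 2 ^ (6 * A), fun n hn => ?_⟩
    obtain ⟨j, z1, hj, h1, h2⟩ := exists_j he n hn
    obtain ⟨z, J, hJ, hz, hk, hu, hl⟩ := hC z1 h2
    have hJ2 : 2 ^ J ≤ 2 ^ (6 * A) := Nat.pow_le_pow_right (by norm_num) hJ
    have e1 : 2 ^ (J + j + 1) * n = 2 ^ J * (2 ^ (j + 1) * n) := by
      rw [show J + j + 1 = J + (j + 1) by ring, pow_add]; ring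
    have e2 : 3 ^ (A + 1) * z = 3 * (3 ^ A * z) := by rw [pow_succ]; ring
    have e3 : 2 ^ J * (3 * z1) = 3 * (2 ^ J * z1) := by ring
    refine ⟨z, J + j + 1, by omega, hz, fun k => ?_, ?_, ?_⟩
    · have h3 : f (z1 + 3 ^ A * (2 ^ (j + 1) * k)) = f (n + 3 ^ (A + 1) * k) := by
        refine h.step (j := j) ?_
        have h4 : 3 * (z1 + 3 ^ A * (2 ^ (j + 1) * k)) + 2 * e =
            (3 * z1 + 2 * e) + 3 * (3 ^ A * (2 ^ (j + 1) * k)) := by ring
        rw [h4, h1, pow_succ 3 A]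
        ring
      rw [← h3, hk]
      congr 1
      rw [show J + j + 1 = J + (j + 1) by ring, pow_add 2 J]; ring
    · rw [e1, e2]
      have h3 : 3 * z1 ≤ 2 ^ (j + 1) * n + 1 := by omega
      have h4 : 2 ^ J * (3 * z1) ≤ 2 ^ J * (2 ^ (j + 1) * n + 1) := Nat.mul_le_mul_left _ h3
      rw [mul_add, mul_one] at h4
      omega
    · rw [e1, e2]
      have h3 : 2 ^ (j + 1) * n ≤ 3 * z1 + 1 := by omega
      have h4 : 2 ^ J * (2 ^ (j + 1) * n) ≤ 2 ^ J * (3 * z1 + 1) := Nat.mul_le_mul_left _ h3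
      rw [mul_add, mul_one] at h4
      omega

theorem level {X0 : ℕ} (hX : 1 ≤ X0) (n L : ℕ) (hn : 2 ^ L * X0 ≤ n) :
    ∃ l x, L ≤ l ∧ X0 ≤ x ∧ x < 2 * X0 ∧ 2 ^ l * x ≤ n ∧ n < 2 ^ l * (x + 1) := by
  have h0 : 1 ≤ n / X0 := by
    rw [Nat.le_div_iff_mul_le hX]
    have : 1 ≤ 2 ^ L := Nat.one_le_two_pow
    calc 1 * X0 ≤ 2 ^ L * X0 := Nat.mul_le_mul_right _ this
      _ ≤ n := hn
  set l := Nat.log 2 (n / X0) with hl
  have h1 : 2 ^ l ≤ n / X0 := Nat.pow_log_le_self 2 (by omega)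
  have h2 : n / X0 < 2 ^ (l + 1) := Nat.lt_pow_succ_log_self (by norm_num) _
  rw [Nat.le_div_iff_mul_le hX] at h1
  rw [Nat.div_lt_iff_lt_mul hX] at h2
  have hpos : 0 < 2 ^ l := by positivity
  refine ⟨l, n / 2 ^ l, ?_, ?_, ?_, ?_, ?_⟩
  · rw [hl]
    refine Nat.le_log_of_pow_le (by norm_num) ?_
    rw [Nat.le_div_iff_mul_le hX]
    exact hn
  · rw [Nat.le_div_iff_mul_le hpos, mul_comm]
    exact h1
  · rw [Nat.div_lt_iff_lt_mul hpos]
    calc n < 2 ^ (l + 1) * X0 := h2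
      _ = 2 * X0 * 2 ^ l := by rw [pow_succ]; ring
  · exact Nat.mul_div_le n _
  · have := Nat.lt_mul_div_succ n hpos
    exact this

theorem FF_of_not {z : ℕ} (hz : ¬ 3 ∣ z) : FF f z = f z := by
  unfold FF
  simp [hz]

theorem eventually_periodic (he : e = 1 ∨ e = 2) (h : Inv e f) (hfin : (ker2 f).Finite) :
    ∃ M, Odd M ∧ 3 ∣ M ∧ ∃ n1, ∀ n, n1 ≤ n → FF f n = FF f (n + M) := by
  obtain ⟨X0, M, hX0, hM, h3M, hper⟩ := uniform_period he h hfin
  obtain ⟨A, hA⟩ : ∃ A, 2 * X0 < 3 ^ A := by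
    refine ⟨2 * X0, ?_⟩
    exact Nat.lt_pow_self (by norm_num)
  obtain ⟨C, hC⟩ := chain he h A
  set D0 := 2 ^ (6 * A) * (3 ^ A * M) + C + 3 ^ A * (2 ^ (6 * A) * M) with hD0
  obtain ⟨L, hL⟩ : ∃ L, D0 < 2 ^ L := ⟨D0, Nat.lt_two_pow_self⟩
  refine ⟨3 ^ A * M, (Odd.pow (by decide)).mul hM, h3M.mul_left _,
    3 ^ A * (2 ^ L * X0) + C + 2 ^ L * X0, ?_⟩
  intro n hn
  by_cases hn3 : 3 ∣ n
  · have h1 : FF f n = False := by unfold FF; simp [hn3]
    have h2 : FF f (n + 3 ^ A * M) = False := by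
      unfold FF
      have : 3 ∣ n + 3 ^ A * M := Nat.dvd_add hn3 (h3M.mul_left _)
      simp [this]
    rw [h1, h2]
  have hn3' : ¬ 3 ∣ n + 3 ^ A * M := by
    rw [Nat.dvd_add_left (h3M.mul_left _)]
    exact hn3
  -- periodicity along a chain
  have long : ∀ (x l w k : ℕ), X0 ≤ x → 2 ^ l * x < w → w + k * M < 2 ^ l * (x + 1) →
      FF f w = FF f (w + k * M) := by
    intro x l w k hx h1 h2
    rcases Nat.eq_zero_or_pos k with rfl | hk
    · simp
    · have hMk : M ≤ k * M := Nat.le_mul_of_pos_left _ hk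
      refine congr_of_period (F := FF f) (A := 2 ^ l * x + 1) (B := 2 ^ l * (x + 1) - M)
        (P := M) ?_ w k h1 (by omega)
      intro w' h3 h4
      exact hper x hx l w' h3 (by omega)
  obtain ⟨l, x, hlL, hx1, hx2, hx3, hx4⟩ := level hX0 n L (by omega)
  by_cases hgood : 2 ^ l * x < n ∧ n + 3 ^ A * M < 2 ^ l * (x + 1)
  · exact long x l n (3 ^ A) hx1 hgood.1 hgood.2
  -- near a boundary
  obtain ⟨x2, hx2a, hx2b, hx2c, hx2d⟩ : ∃ x2, 1 ≤ x2 ∧ x2 ≤ 2 * X0 ∧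
      2 ^ l * x2 ≤ n + 3 ^ A * M ∧ n ≤ 2 ^ l * x2 + 3 ^ A * M := by
    by_cases h1 : 2 ^ l * x < n
    · refine ⟨x + 1, by omega, by omega, ?_, by omega⟩
      by_contra h2
      exact hgood ⟨h1, by omega⟩
    · exact ⟨x, by omega, by omega, by omega, by omega⟩
  obtain ⟨z, J, hJ, hz, hk, hu, hlo⟩ := hC n hn3
  have hf1 : f n = f z := by
    have := hk 0
    simpa using this
  have hf2 := hk M
  have hJ2 : 2 ^ J ≤ 2 ^ (6 * A) := Nat.pow_le_pow_right (by norm_num) hJ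
  have hz' : ¬ 3 ∣ z + 2 ^ J * M := by
    rw [Nat.dvd_add_left (h3M.mul_left _)]
    exact hz
  have hzL : 2 ^ L * X0 ≤ z := by
    by_contra hcon
    have h1 : 3 ^ A * z ≤ 3 ^ A * (2 ^ L * X0) := Nat.mul_le_mul_left _ (by omega)
    have h2 : n ≤ 2 ^ J * n := Nat.le_mul_of_pos_left _ (by positivity)
    have h3 : 1 ≤ 2 ^ L * X0 := Nat.mul_pos (by positivity) hX0
    omega
  obtain ⟨l', x', hlL', hx1', hx2', hx3', hx4'⟩ := level hX0 z L hzL
  rw [FF_of_not hn3, FF_of_not hn3', hf1, hf2, ← FF_of_not (f := f) hz,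
    ← FF_of_not (f := f) hz']
  by_cases hgood' : 2 ^ l' * x' < z ∧ z + 2 ^ J * M < 2 ^ l' * (x' + 1)
  · exact long x' l' z (2 ^ J) hx1' hgood'.1 hgood'.2
  exfalso
  obtain ⟨y, hya, hyb, hyc, hyd⟩ : ∃ y, 1 ≤ y ∧ y ≤ 2 * X0 ∧
      2 ^ l' * y ≤ z + 2 ^ J * M ∧ z ≤ 2 ^ l' * y + 2 ^ J * M := by
    by_cases h1 : 2 ^ l' * x' < z
    · refine ⟨x' + 1, by omega, by omega, ?_, by omega⟩
      by_contra h2
      exact hgood' ⟨h1, by omega⟩
    · exact ⟨x', by omega, by omega, by omega, by omega⟩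
  have hab : 3 ^ A * (2 ^ l' * y) = 2 ^ J * (2 ^ l * x2) := by
    set a := 3 ^ A * (2 ^ l' * y) with ha
    set b := 2 ^ J * (2 ^ l * x2) with hb
    have hd1 : 2 ^ J * (3 ^ A * M) ≤ 2 ^ (6 * A) * (3 ^ A * M) := Nat.mul_le_mul_right _ hJ2
    have hd2 : 3 ^ A * (2 ^ J * M) ≤ 3 ^ A * (2 ^ (6 * A) * M) :=
      Nat.mul_le_mul_left _ (Nat.mul_le_mul_right _ hJ2)
    have h1 : a ≤ 3 ^ A * z + 3 ^ A * (2 ^ J * M) := by
      rw [ha, ← mul_add]; exact Nat.mul_le_mul_left _ hyc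
    have h2 : 3 ^ A * z ≤ a + 3 ^ A * (2 ^ J * M) := by
      rw [ha, ← mul_add]; exact Nat.mul_le_mul_left _ hyd
    have h3 : b ≤ 2 ^ J * n + 2 ^ J * (3 ^ A * M) := by
      rw [hb, ← mul_add]; exact Nat.mul_le_mul_left _ hx2c
    have h4 : 2 ^ J * n ≤ b + 2 ^ J * (3 ^ A * M) := by
      rw [hb, ← mul_add]; exact Nat.mul_le_mul_left _ hx2d
    have h5 : a ≤ b + D0 := by omega
    have h6 : b ≤ a + D0 := by omega
    have hda : 2 ^ L ∣ a := by
      rw [ha]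
      exact ((Nat.pow_dvd_pow 2 hlL').mul_right y).mul_left _
    have hdb : 2 ^ L ∣ b := by
      rw [hb]
      exact ((Nat.pow_dvd_pow 2 hlL).mul_right x2).mul_left _
    rcases lt_trichotomy a b with hlt | heq | hgt
    · exfalso
      have h7 : 2 ^ L ∣ b - a := Nat.dvd_sub hdb hda
      have h8 := Nat.le_of_dvd (by omega) h7
      omega
    · exact heq
    · exfalso
      have h7 : 2 ^ L ∣ a - b := Nat.dvd_sub hda hdb
      have h8 := Nat.le_of_dvd (by omega) h7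
      omega
  have h9 : 3 ^ A ∣ 2 ^ J * (2 ^ l * x2) := ⟨_, hab.symm⟩
  have h10 : Nat.Coprime (3 ^ A) (2 ^ J) := Nat.Coprime.pow _ _ (by norm_num)
  have h11 : Nat.Coprime (3 ^ A) (2 ^ l) := Nat.Coprime.pow _ _ (by norm_num)
  have h12 : 3 ^ A ∣ x2 := h11.dvd_of_dvd_mul_left (h10.dvd_of_dvd_mul_left h9)
  have h13 := Nat.le_of_dvd (by omega) h12
  omega

theorem periodic (he : e = 1 ∨ e = 2) (h : Inv e f) (hfin : (ker2 f).Finite) :
    ∃ M, Odd M ∧ 3 ∣ M ∧ ∀ n, FF f n = FF f (n + M) := by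
  obtain ⟨M, hM, h3M, n1, hn1⟩ := eventually_periodic he h hfin
  refine ⟨M, hM, h3M, fun n => ?_⟩
  rcases Nat.eq_zero_or_pos n with rfl | hn
  · have h1 : FF f 0 = False := by unfold FF; simp
    have h2 : FF f (0 + M) = False := by
      unfold FF
      simp [h3M]
    rw [h1, h2]
  · have h1 : n1 ≤ 2 ^ n1 * n := by
      have : n1 < 2 ^ n1 := Nat.lt_two_pow_self
      calc n1 ≤ 2 ^ n1 * 1 := by omega
        _ ≤ 2 ^ n1 * n := Nat.mul_le_mul_left _ hn
    have h2 := congr_of_period (F := FF f) (A := n1) (B := 2 ^ n1 * n + 2 ^ n1 * M + 1)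
      (P := M) (fun w hw _ => hn1 w hw) (2 ^ n1 * n) (2 ^ n1) h1 (by omega)
    rw [← mul_add, FF_two_pow h, FF_two_pow h] at h2
    exact h2

/-- the algebraic end game -/
theorem endgame (H : ℤ → Prop) (M : ℤ) (hM : Odd M) (h3 : 3 ∣ M)
    (hp : ∀ s t, H (s + M * t) = H s) (h2 : ∀ s, H (2 * s) = H s)
    (h31 : ∀ s, ¬ 3 ∣ s → H (3 * s + 1) = H s) (s : ℤ) (hs : ¬ 3 ∣ s) : H s = H 4 := by
  obtain ⟨N, hN⟩ := hM
  have half : ∀ s : ℤ, ¬ 3 ∣ s → ∃ t, 2 * t = s + M * s ∧ ¬ 3 ∣ t := by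
    intro s hs
    refine ⟨s * (N + 1), by rw [hN]; ring, ?_⟩
    intro h
    apply hs
    have h4 : 3 ∣ 2 * (s * (N + 1)) := h.mul_left 2
    have h5 : 2 * (s * (N + 1)) = s + M * s := by rw [hN]; ring
    rw [h5] at h4
    have h6 : (3 : ℤ) ∣ M * s := h3.mul_right s
    omega
  have q2 : ∀ s : ℤ, ¬ 3 ∣ s → H (3 * s + 2) = H s := by
    intro s hs
    obtain ⟨t, ht, ht3⟩ := half s hs
    have e1 : H (3 * s + 2) = H (2 * (3 * t + 1)) := by
      rw [← hp (3 * s + 2) (3 * s)]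
      congr 1
      linear_combination -3 * ht
    rw [e1, h2, h31 t ht3, ← h2 t, ht, hp]
  have q4 : ∀ s : ℤ, ¬ 3 ∣ s → H (3 * s + 4) = H s := by
    intro s hs
    obtain ⟨t, ht, ht3⟩ := half s hs
    have e1 : H (3 * s + 4) = H (2 * (3 * t + 2)) := by
      rw [← hp (3 * s + 4) (3 * s)]
      congr 1
      linear_combination -3 * ht
    rw [e1, h2, q2 t ht3, ← h2 t, ht, hp]
  have q8 : ∀ s : ℤ, ¬ 3 ∣ s → H (3 * s + 8) = H s := by
    intro s hs
    obtain ⟨t, ht, ht3⟩ := half s hs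
    have e1 : H (3 * s + 8) = H (2 * (3 * t + 4)) := by
      rw [← hp (3 * s + 8) (3 * s)]
      congr 1
      linear_combination -3 * ht
    rw [e1, h2, q4 t ht3, ← h2 t, ht, hp]
  have key : ∀ k : ℤ, H (9 * k + 5) = H (9 * k + 4) ∧ H (9 * k + 7) = H (9 * k + 4) ∧
      H (9 * k + 8) = H (9 * k + 4) ∧ H (9 * k + 10) = H (9 * k + 4) ∧
      H (9 * k + 11) = H (9 * k + 4) ∧ H (9 * k + 13) = H (9 * k + 4) := by
    intro k
    have n1 : ¬ (3 : ℤ) ∣ 3 * k + 1 := by omega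
    have n2 : ¬ (3 : ℤ) ∣ 3 * k + 2 := by omega
    have n4 : ¬ (3 : ℤ) ∣ 3 * k + 4 := by omega
    have a1 := h31 _ n1
    have a2 := q2 _ n1
    have a4 := q4 _ n1
    have a8 := q8 _ n1
    have b1 := h31 _ n2
    have b2 := q2 _ n2
    have b4 := q4 _ n2
    have b8 := q8 _ n2
    have c1 := h31 _ n4
    have c2 := q2 _ n4
    have r1 : 3 * (3 * k + 1) + 1 = 9 * k + 4 := by ring
    have r2 : 3 * (3 * k + 1) + 2 = 9 * k + 5 := by ring
    have r4 : 3 * (3 * k + 1) + 4 = 9 * k + 7 := by ring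
    have r8 : 3 * (3 * k + 1) + 8 = 9 * k + 11 := by ring
    have s1 : 3 * (3 * k + 2) + 1 = 9 * k + 7 := by ring
    have s2 : 3 * (3 * k + 2) + 2 = 9 * k + 8 := by ring
    have s4 : 3 * (3 * k + 2) + 4 = 9 * k + 10 := by ring
    have s8 : 3 * (3 * k + 2) + 8 = 9 * k + 14 := by ring
    have t1 : 3 * (3 * k + 4) + 1 = 9 * k + 13 := by ring
    have t2 : 3 * (3 * k + 4) + 2 = 9 * k + 14 := by ring
    rw [r1] at a1
    rw [r2] at a2
    rw [r4] at a4
    rw [r8] at a8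
    rw [s1] at b1
    rw [s2] at b2
    rw [s4] at b4
    rw [s8] at b8
    rw [t1] at c1
    rw [t2] at c2
    refine ⟨by rw [a2, a1], by rw [a4, a1], ?_, ?_, by rw [a8, a1], ?_⟩
    · rw [b2, ← b1, a4, a1]
    · rw [b4, ← b1, a4, a1]
    · rw [c1, ← c2, b8, ← b1, a4, a1]
  have all : ∀ k : ℤ, H (9 * k + 4) = H 4 := by
    intro k
    induction k using Int.induction_on with
    | zero => simp
    | succ i ih =>
      have h4 := (key i).2.2.2.2.2
      have h5 : 9 * ((i : ℤ) + 1) + 4 = 9 * i + 13 := by ring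
      rw [h5, h4, ih]
    | pred i ih =>
      have h4 := (key (-(i : ℤ) - 1)).2.2.2.2.2
      have h5 : 9 * (-(i : ℤ) - 1) + 13 = 9 * (-(i : ℤ)) + 4 := by ring
      rw [h5] at h4
      rw [← h4, ih]
  obtain ⟨k, hk⟩ : ∃ k : ℤ, s = 9 * k + 4 ∨ s = 9 * k + 5 ∨ s = 9 * k + 7 ∨ s = 9 * k + 8 ∨
      s = 9 * k + 10 ∨ s = 9 * k + 11 := ⟨(s - 4) / 9, by omega⟩
  obtain ⟨k5, k7, k8, k10, k11, _⟩ := key k
  rcases hk with rfl | rfl | rfl | rfl | rfl | rfl
  · exact all k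
  · rw [k5, all]
  · rw [k7, all]
  · rw [k8, all]
  · rw [k10, all]
  · rw [k11, all]

/-- **Main theorem.** A function `f` with `f (2n) = f n`, `f (2n+1) = f (3n+e)` (`e = 1, 2`)
and finite 2-kernel is constant on the positive integers. -/
theorem main (he : e = 1 ∨ e = 2) (h : Inv e f) (hfin : (ker2 f).Finite) :
    ∀ n, 1 ≤ n → f n = f 1 := by
  obtain ⟨M, hM, h3M, hper⟩ := periodic he h hfin
  have hM0 : 0 < M := hM.pos
  have hmod : ∀ n, FF f (n % M) = FF f n := by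
    intro n
    refine congr_of_modEq (F := FF f) (A := 0) (B := n + 1) (P := M) (fun w _ _ => hper w)
      (Nat.zero_le _) (Nat.zero_le _) ?_ (by omega) (Nat.mod_modEq n M)
    have := Nat.mod_le n M
    omega
  set g : ℤ → Prop := fun s => FF f (s % M).toNat with hg
  have gnat : ∀ n : ℕ, g n = FF f n := by
    intro n
    rw [hg]
    simp only
    rw [← hmod n]
    congr 1
  have gper : ∀ s t : ℤ, g (s + M * t) = g s := by
    intro s t
    simp only [hg, Int.add_mul_emod_self_left]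
  -- a natural representative of given parity
  have rep : ∀ s : ℤ, ∃ n : ℕ, Odd n ∧ ∃ t : ℤ, (n : ℤ) = s + M * t := by
    intro s
    have h1 : 0 ≤ s % M := Int.emod_nonneg _ (by exact_mod_cast hM0.ne')
    have h2 := Int.emod_add_mul_ediv s M
    obtain ⟨n, hn⟩ := Int.eq_ofNat_of_zero_le h1
    rcases Nat.even_or_odd n with hev | hod
    · refine ⟨n + M, hev.add_odd hM, -(s / M) + 1, ?_⟩
      push_cast
      linear_combination -hn + h2
    · refine ⟨n, hod, -(s / M), ?_⟩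
      linear_combination -hn + h2
  set d : ℤ := 2 * e - 3 with hd
  have hdd : d * d = 1 := by
    rcases he with rfl | rfl <;> norm_num [hd]
  have hd3 : ∀ s : ℤ, ¬ 3 ∣ s → ¬ 3 ∣ d * s := by
    intro s hs
    rcases he with rfl | rfl
    · simp only [hd]; norm_num; exact hs
    · simp only [hd]; norm_num; exact hs
  have g2 : ∀ s, g (2 * s) = g s := by
    intro s
    obtain ⟨n, _, t, ht⟩ := rep s
    have e1 : g (2 * s) = g ((2 * n : ℕ) : ℤ) := by
      rw [← gper (2 * s) (2 * t)]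
      congr 1
      push_cast
      linear_combination -2 * ht
    have e2 : g s = g n := by
      rw [← gper s t, ht]
    rw [e1, e2, gnat, gnat]
    have := FF_two_pow h 1 n
    simpa using this
  have g3 : ∀ s, ¬ 3 ∣ s → g (3 * s + d) = g s := by
    intro s hs
    obtain ⟨n, hodd, t, ht⟩ := rep s
    have hn3 : ¬ 3 ∣ n := by
      intro h1
      apply hs
      have h2 : (3 : ℤ) ∣ n := by exact_mod_cast h1
      have h3 : (3 : ℤ) ∣ M * t := by
        have : (3 : ℤ) ∣ (M : ℤ) := by exact_mod_cast h3M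
        exact this.mul_right t
      omega
    obtain ⟨w, hw⟩ := hodd
    have e2 : g s = f n := by
      rw [← gper s t, ← ht, gnat, FF_of_not hn3]
    have e1 : g (3 * s + d) = g ((2 * (3 * w + e) : ℕ) : ℤ) := by
      rw [← gper (3 * s + d) (3 * t)]
      congr 1
      rw [hw] at ht
      push_cast at ht ⊢
      rw [hd]
      linear_combination -3 * ht
    have h4 : ¬ 3 ∣ 2 * (3 * w + e) := by
      rcases he with rfl | rfl <;> omega
    rw [e1, e2, gnat, FF_of_not h4, h.two, hw, h.odd]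
  have key : ∀ n : ℕ, ¬ 3 ∣ n → f n = g (d * 4) := by
    intro n hn
    have h1 : g (d * (d * n)) = g (d * 4) := endgame (fun s => g (d * s)) M (by exact_mod_cast hM) (by exact_mod_cast h3M)
      (fun s t => by
        show g (d * (s + M * t)) = g (d * s)
        rw [show d * (s + M * t) = d * s + M * (d * t) by ring, gper])
      (fun s => by
        show g (d * (2 * s)) = g (d * s)
        rw [show d * (2 * s) = 2 * (d * s) by ring, g2])
      (fun s hs => by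
        show g (d * (3 * s + 1)) = g (d * s)
        rw [show d * (3 * s + 1) = 3 * (d * s) + d by ring, g3 _ (hd3 s hs)])
      (d * n) (hd3 _ (by exact_mod_cast hn))
    rw [← mul_assoc, hdd, one_mul, gnat, FF_of_not hn] at h1
    exact h1
  intro n hn
  have h1 : f 1 = g (d * 4) := key 1 (by norm_num)
  rw [h1]
  obtain ⟨v, z, hz, hvz⟩ := Nat.exists_eq_two_pow_mul_odd (n := n) (by omega)
  obtain ⟨w, hw⟩ := hz
  rw [hvz, h.two_pow, hw, h.odd]
  refine key _ ?_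
  rcases he with rfl | rfl <;> omega

end Pool.Agent.H966R2.Clz
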