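import Pool.Agent.H966R2.Clz.Basic

/-!
# Local periodicity of Collatz-invariant functions with finite 2-kernel
-/

set_option autoImplicit false

namespace Pool.Agent.H966R2.Clz

variable {e : ℕ} {f : ℕ → Prop}

theorem approx (R : ℕ) : ∃ m n Δ : ℕ, 1 ≤ n ∧ 1 ≤ Δ ∧ R * Δ < 2 ^ m ∧
    (2 ^ m = 3 ^ n + Δ ∨ 3 ^ n = 2 ^ m + Δ) := by
  set α : ℝ := Real.logb 2 3 with hα
  have hα1 : 1 ≤ α := by
    rw [hα, Real.le_logb_iff_rpow_le (by norm_num) (by norm_num)]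
    norm_num
  obtain ⟨k, hk0, -, hk⟩ := Real.exists_nat_abs_mul_sub_round_le α
    (n := 2 * R + 2) (by omega)
  set b : ℤ := round ((k : ℝ) * α) with hb
  set t : ℝ := (k : ℝ) * α - b with ht
  have hk1 : (1 : ℝ) ≤ k := by exact_mod_cast hk0
  have hR : (1 : ℝ) / (((2 * R + 2 : ℕ) : ℝ) + 1) ≤ 1 / 3 := by
    apply one_div_le_one_div_of_le (by norm_num)
    push_cast
    linarith [Nat.cast_nonneg (α := ℝ) R]
  have hb1 : (1 / 2 : ℝ) < b := by
    have h1 := (abs_le.1 hk).2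
    have h2 : (1 : ℝ) ≤ k * α := by nlinarith
    have h3 : (k : ℝ) * α - b ≤ 1 / 3 := h1.trans hR
    linarith
  have hb2 : 1 ≤ b := by
    by_contra h
    have : b ≤ 0 := by omega
    have : (b : ℝ) ≤ 0 := by exact_mod_cast this
    linarith
  obtain ⟨m, hm⟩ := Int.eq_ofNat_of_zero_le (by omega : 0 ≤ b)
  have hm1 : 1 ≤ m := by omega
  have h3k : (3 : ℝ) ^ k = 2 ^ m * Real.exp (t * Real.log 2) := by
    have h1 : (3 : ℝ) = Real.exp (α * Real.log 2) := by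
      rw [hα, Real.logb, div_mul_cancel₀ _ (Real.log_pos (by norm_num)).ne',
        Real.exp_log (by norm_num)]
    have h2 : (2 : ℝ) ^ m = Real.exp (m * Real.log 2) := by
      rw [mul_comm, Real.exp_mul, Real.exp_log (by norm_num), Real.rpow_natCast]
    have h3 : (3 : ℝ) ^ k = Real.exp (k * (α * Real.log 2)) := by
      conv_lhs => rw [h1]
      rw [← Real.exp_nat_mul]
    rw [h2, ← Real.exp_add, h3]
    congr 1
    have h4 : (b : ℝ) = m := by rw [hm]; simp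
    rw [ht, h4]
    ring
  have habs : |Real.exp (t * Real.log 2) - 1| ≤ 2 * (1 / (((2 * R + 2 : ℕ) : ℝ) + 1)) := by
    have hlog : Real.log 2 ≤ 1 := by
      have := Real.log_two_lt_d9
      linarith
    have hlog0 : 0 ≤ Real.log 2 := Real.log_nonneg (by norm_num)
    have h1 : |t * Real.log 2| ≤ 1 / (((2 * R + 2 : ℕ) : ℝ) + 1) := by
      rw [abs_mul, abs_of_nonneg hlog0]
      calc |t| * Real.log 2 ≤ |t| * 1 := mul_le_mul_of_nonneg_left hlog (abs_nonneg _)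
        _ = |t| := mul_one _
        _ ≤ _ := hk
    have h2 := Real.abs_exp_sub_one_le (h1.trans (hR.trans (by norm_num)))
    linarith
  have hdiff : |(3 : ℝ) ^ k - 2 ^ m| * R < 2 ^ m := by
    rw [h3k]
    have h1 : (2 : ℝ) ^ m * Real.exp (t * Real.log 2) - 2 ^ m =
        2 ^ m * (Real.exp (t * Real.log 2) - 1) := by ring
    rw [h1, abs_mul, abs_of_pos (by positivity : (0 : ℝ) < 2 ^ m), mul_assoc]
    have h2 : |Real.exp (t * Real.log 2) - 1| * R < 1 := by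
      have h3 : |Real.exp (t * Real.log 2) - 1| * R ≤
          2 * (1 / (((2 * R + 2 : ℕ) : ℝ) + 1)) * R :=
        mul_le_mul_of_nonneg_right habs (Nat.cast_nonneg _)
      refine h3.trans_lt ?_
      rw [mul_one_div, div_mul_eq_mul_div, div_lt_one (by positivity)]
      push_cast
      linarith [Nat.cast_nonneg (α := ℝ) R]
    have h4 : (0 : ℝ) < 2 ^ m := by positivity
    nlinarith
  have hne : (3 : ℕ) ^ k ≠ 2 ^ m := by
    intro h
    have h1 : Odd (3 ^ k : ℕ) := Odd.pow (by decide)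
    have h2 : Even (2 ^ m : ℕ) := Nat.even_pow.2 ⟨by decide, by omega⟩
    rw [h] at h1
    exact (Nat.not_odd_iff_even.2 h2) h1
  rcases lt_or_gt_of_ne hne with h | h
  · refine ⟨m, k, 2 ^ m - 3 ^ k, by omega, by omega, ?_, Or.inl (by omega)⟩
    have h1 : ((2 ^ m - 3 ^ k : ℕ) : ℝ) = 2 ^ m - 3 ^ k := by
      rw [Nat.cast_sub h.le]; push_cast; ring
    have h2 : |(3 : ℝ) ^ k - 2 ^ m| = 2 ^ m - 3 ^ k := by
      rw [abs_sub_comm, abs_of_pos]
      have : ((3 ^ k : ℕ) : ℝ) < ((2 ^ m : ℕ) : ℝ) := by exact_mod_cast h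
      push_cast at this
      linarith
    rw [h2, ← h1] at hdiff
    rw [mul_comm]
    exact_mod_cast hdiff
  · refine ⟨m, k, 3 ^ k - 2 ^ m, by omega, by omega, ?_, Or.inr (by omega)⟩
    have h1 : ((3 ^ k - 2 ^ m : ℕ) : ℝ) = 3 ^ k - 2 ^ m := by
      rw [Nat.cast_sub h.le]; push_cast; ring
    have h2 : |(3 : ℝ) ^ k - 2 ^ m| = 3 ^ k - 2 ^ m := by
      rw [abs_of_pos]
      have : ((2 ^ m : ℕ) : ℝ) < ((3 ^ k : ℕ) : ℝ) := by exact_mod_cast h
      push_cast at this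
      linarith
    rw [h2, ← h1] at hdiff
    rw [mul_comm]
    exact_mod_cast hdiff

/-- small local period from an approximation `2^m ≈ 3^n` -/
theorem small_period (he : e = 1 ∨ e = 2) (h : Inv e f) {x x' : ℕ} (hr : Rel f x x')
    (hx : x < x') {m n Δ : ℕ} (hn : 1 ≤ n) (hΔ : 2 ^ m = 3 ^ n + Δ ∨ 3 ^ n = 2 ^ m + Δ)
    (w : ℕ) (h1 : 2 ^ m * x + 2 * (x' + 1) * Δ ≤ w)
    (h2 : w + 2 * (x' + 1) * Δ < 2 ^ m * (x + 1)) :
    FF f w = FF f (w + Δ * (x' - x)) := by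
  obtain ⟨δ, rfl⟩ : ∃ δ, x' = x + δ := ⟨x' - x, by omega⟩
  have hδ : x + δ - x = δ := by omega
  rw [hδ]
  have e1 : 2 * (x + δ + 1) * Δ = 2 * (x * Δ) + 2 * (δ * Δ) + 2 * Δ := by ring
  have e2 : 2 ^ m * (x + 1) = 2 ^ m * x + 2 ^ m := by ring
  rw [e1] at h1 h2
  rw [e2] at h2
  rcases hΔ with hΔ | hΔ
  · -- `2^m = 3^n + Δ`
    obtain ⟨t, rfl⟩ : ∃ t, w = 2 ^ m * x + t := ⟨w - 2 ^ m * x, by omega⟩
    have h3 := rel2 hr m t (by omega)
    rw [h3]
    have h4 : 2 ^ m * (x + δ) + t = 3 ^ n * (x + δ) + (x * Δ + δ * Δ + t) := by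
      rw [hΔ]; ring
    rw [h4, ← rel3 he h hr n _ hn (by omega)]
    congr 1
    rw [hΔ]; ring
  · -- `3^n = 2^m + Δ`
    obtain ⟨t, ht⟩ : ∃ t, w + Δ * δ = 2 ^ m * x + t := ⟨w + Δ * δ - 2 ^ m * x, by omega⟩
    have hc : Δ * δ = δ * Δ := mul_comm _ _
    rw [ht, rel2 hr m t (by omega)]
    obtain ⟨s, hs⟩ : ∃ s, t = x * Δ + δ * Δ + s := ⟨t - (x * Δ + δ * Δ), by omega⟩
    have h4 : 2 ^ m * (x + δ) + t = 3 ^ n * (x + δ) + s := by
      rw [hΔ, hs]; ring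
    rw [h4, ← rel3 he h hr n s hn (by omega)]
    congr 1
    have h5 : 3 ^ n * x = 2 ^ m * x + x * Δ := by rw [hΔ]; ring
    omega

/-- a function with `F w = F (w + P)` on `[A, B)` depends only on the residue -/
theorem congr_of_period {F : ℕ → Prop} {A B P : ℕ}
    (hper : ∀ w, A ≤ w → w < B → F w = F (w + P)) (w k : ℕ) (hw : A ≤ w)
    (hk : w + k * P < B + P) : F w = F (w + k * P) := by
  induction k with
  | zero => simp
  | succ k ih =>
    have h1 : (k + 1) * P = k * P + P := by ring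
    rw [h1] at hk ⊢
    rw [ih (by omega), hper (w + k * P) (by omega) (by omega), add_assoc]

theorem congr_of_modEq {F : ℕ → Prop} {A B P : ℕ}
    (hper : ∀ w, A ≤ w → w < B → F w = F (w + P)) {w w' : ℕ} (hw : A ≤ w) (hw' : A ≤ w')
    (h1 : w < B + P) (h2 : w' < B + P) (hmod : w ≡ w' [MOD P]) : F w = F w' := by
  rcases le_total w w' with hle | hle
  · obtain ⟨k, hk⟩ := (Nat.modEq_iff_dvd' hle).1 hmod
    have h3 : w' = w + k * P := by
      rw [mul_comm k P, ← hk]; omega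
    rw [h3]
    exact congr_of_period hper w k hw (by omega)
  · obtain ⟨k, hk⟩ := (Nat.modEq_iff_dvd' hle).1 hmod.symm
    have h3 : w = w' + k * P := by
      rw [mul_comm k P, ← hk]; omega
    rw [h3]
    exact (congr_of_period hper w' k hw' (by omega)).symm

/-- two equal blocks in a periodic region give a new period -/
theorem block_period {F : ℕ → Prop} {A B P i u c : ℕ} (hP : 1 ≤ P) (hPi : P ≤ 2 ^ i)
    (hper : ∀ w, A ≤ w → w < B → F w = F (w + P))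
    (hu : A ≤ u * 2 ^ i) (hu' : (u + c + 1) * 2 ^ i ≤ B)
    (hblock : ∀ v, v < 2 ^ i → F (u * 2 ^ i + v) = F ((u + c) * 2 ^ i + v))
    (w : ℕ) (hw : A ≤ w) (hw' : w + c * 2 ^ i < B + P) : F w = F (w + c * 2 ^ i) := by
  obtain ⟨v, hv, hmod⟩ : ∃ v, v < P ∧ w ≡ u * 2 ^ i + v [MOD P] := by
    refine ⟨(w + (P - (u * 2 ^ i) % P)) % P, Nat.mod_lt _ hP, ?_⟩
    have h1 : (u * 2 ^ i + (w + (P - (u * 2 ^ i) % P)) % P) % P = w % P := by
      rw [Nat.add_mod_mod]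
      have h2 : (u * 2 ^ i) % P < P := Nat.mod_lt _ hP
      have h3 := Nat.div_add_mod (u * 2 ^ i) P
      have h4 : u * 2 ^ i + (w + (P - (u * 2 ^ i) % P)) =
          w + P * ((u * 2 ^ i) / P + 1) := by
        rw [mul_add, mul_one]
        omega
      rw [h4, Nat.add_mul_mod_self_left]
    exact h1.symm
  have e1 : (u + c + 1) * 2 ^ i = u * 2 ^ i + c * 2 ^ i + 2 ^ i := by ring
  have e2 : (u + c) * 2 ^ i = u * 2 ^ i + c * 2 ^ i := by ring
  rw [e1] at hu'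
  have h1 : F w = F (u * 2 ^ i + v) :=
    congr_of_modEq hper hw (by omega) (by omega) (by omega) hmod
  have h2 : F (w + c * 2 ^ i) = F ((u + c) * 2 ^ i + v) := by
    refine congr_of_modEq hper (by omega) (by omega) (by omega) (by omega) ?_
    rw [e2, show u * 2 ^ i + c * 2 ^ i + v = (u * 2 ^ i + v) + c * 2 ^ i by ring]
    exact hmod.add_right _
  rw [h1, h2]
  exact hblock v (lt_of_lt_of_le hv hPi)

theorem exists_pow_between (P : ℕ) (hP : 1 ≤ P) : ∃ i, P ≤ 2 ^ i ∧ 2 ^ i < 2 * P := by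
  refine ⟨Nat.clog 2 P, Nat.le_pow_clog (by norm_num) P, ?_⟩
  rcases Nat.lt_or_ge 1 P with h | h
  · have h1 := Nat.pow_pred_clog_lt_self (b := 2) (by norm_num) h
    have h2 : 0 < Nat.clog 2 P := Nat.clog_pos (by norm_num) h
    have h3 : 2 ^ Nat.clog 2 P = 2 ^ (Nat.clog 2 P).pred * 2 := by
      rw [← pow_succ]; congr 1; exact (Nat.succ_pred_eq_of_pos h2).symm
    omega
  · have : P = 1 := by omega
    subst this
    simp

/-- arbitrarily high levels with a bounded period and bounded slack -/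
theorem period_high (he : e = 1 ∨ e = 2) (h : Inv e f) {N : ℕ}
    (hN : ∀ u0, ∃ u u', u0 ≤ u ∧ u < u' ∧ u' ≤ u0 + N ∧ Rel f u u')
    {x x' : ℕ} (hr : Rel f x x') (hx : x < x') (L : ℕ) :
    ∃ l c, L ≤ l ∧ 1 ≤ c ∧ c ≤ N ∧ ∀ n, 2 ^ l * x + 2 * (x' + 1) ≤ n →
      n + c + 2 * (x' + 1) ≤ 2 ^ l * (x + 1) → FF f n = FF f (n + c) := by
  set σ := 2 * (x' + 1) with hσ
  set L' := L + 2 * σ + N + 1 with hL'
  obtain ⟨m, n0, Δ, hn0, hΔ1, hR, hΔ⟩ := approx (2 * (x' - x) * 2 ^ L' + 2 * σ)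
  set P := Δ * (x' - x) with hP
  have hP1 : 1 ≤ P := Nat.mul_pos hΔ1 (by omega)
  obtain ⟨i, hi1, hi2⟩ := exists_pow_between P hP1
  have hΔP : Δ ≤ P := Nat.le_mul_of_pos_right _ (by omega)
  have hbig : 2 * P * 2 ^ L' < 2 ^ m := by
    have : 2 * P * 2 ^ L' ≤ (2 * (x' - x) * 2 ^ L' + 2 * σ) * Δ := by
      rw [hP]
      calc 2 * (Δ * (x' - x)) * 2 ^ L' = (2 * (x' - x) * 2 ^ L') * Δ := by ring
        _ ≤ _ := Nat.mul_le_mul_right _ (by omega)
    omega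
  have hil : 2 ^ i * 2 ^ L' < 2 ^ m := by
    refine lt_of_le_of_lt (Nat.mul_le_mul_right _ hi2.le) hbig
  rw [← pow_add] at hil
  have hil' : i + L' < m := (Nat.pow_lt_pow_iff_right (by norm_num)).1 hil
  obtain ⟨l, rfl⟩ : ∃ l, m = l + i := ⟨m - i, by omega⟩
  have hlL : L' ≤ l := by omega
  have hlbig : 2 * σ + N + 1 ≤ 2 ^ l := by
    have h1 : l < 2 ^ l := Nat.lt_two_pow_self
    omega
  obtain ⟨u, u', hu0, huu, huN, hrel⟩ := hN (2 ^ l * x + σ)
  obtain ⟨c, rfl⟩ : ∃ c, u' = u + c := ⟨u' - u, by omega⟩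
  refine ⟨l, c, by omega, by omega, by omega, ?_⟩
  have hσΔ : σ * Δ ≤ σ * 2 ^ i := Nat.mul_le_mul_left _ (hΔP.trans hi1)
  have hpow : 2 ^ (l + i) = 2 ^ l * 2 ^ i := pow_add _ _ _
  set A := 2 ^ (l + i) * x + σ * Δ with hA
  set B := 2 ^ (l + i) * (x + 1) - σ * Δ with hB
  have hσR : 2 * (σ * Δ) < 2 ^ (l + i) := by
    have : 2 * (σ * Δ) ≤ (2 * (x' - x) * 2 ^ L' + 2 * σ) * Δ := by
      calc 2 * (σ * Δ) = (2 * σ) * Δ := by ring
        _ ≤ _ := Nat.mul_le_mul_right _ (by omega)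
    omega
  have eB : 2 ^ (l + i) * (x + 1) = 2 ^ (l + i) * x + 2 ^ (l + i) := by ring
  have hper : ∀ w, A ≤ w → w < B → FF f w = FF f (w + P) := by
    intro w h1 h2
    refine small_period he h hr hx hn0 hΔ w (by rw [← hσ]; exact h1) ?_
    rw [← hσ]
    omega
  have hblock : ∀ v, v < 2 ^ i → FF f (u * 2 ^ i + v) = FF f ((u + c) * 2 ^ i + v) := by
    intro v hv
    rw [mul_comm u, mul_comm (u + c)]
    exact rel2 hrel i v hv
  have hu1 : A ≤ u * 2 ^ i := by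
    have h1 : (2 ^ l * x + σ) * 2 ^ i ≤ u * 2 ^ i := Nat.mul_le_mul_right _ hu0
    have h2 : (2 ^ l * x + σ) * 2 ^ i = 2 ^ (l + i) * x + σ * 2 ^ i := by rw [hpow]; ring
    omega
  have hu2 : (u + c + 1) * 2 ^ i ≤ B := by
    have h1 : (u + c + 1 + σ) * 2 ^ i ≤ (2 ^ l * (x + 1)) * 2 ^ i := by
      refine Nat.mul_le_mul_right _ ?_
      have : 2 ^ l * (x + 1) = 2 ^ l * x + 2 ^ l := by ring
      omega
    have h2 : (u + c + 1 + σ) * 2 ^ i = (u + c + 1) * 2 ^ i + σ * 2 ^ i := by ring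
    have h3 : (2 ^ l * (x + 1)) * 2 ^ i = 2 ^ (l + i) * (x + 1) := by rw [hpow]; ring
    omega
  intro n hn1 hn2
  have h1 : A ≤ n * 2 ^ i := by
    have h1 : (2 ^ l * x + σ) * 2 ^ i ≤ n * 2 ^ i := Nat.mul_le_mul_right _ hn1
    have h2 : (2 ^ l * x + σ) * 2 ^ i = 2 ^ (l + i) * x + σ * 2 ^ i := by rw [hpow]; ring
    omega
  have h2 : n * 2 ^ i + c * 2 ^ i < B + P := by
    have h1 : (n + c + σ) * 2 ^ i ≤ (2 ^ l * (x + 1)) * 2 ^ i := Nat.mul_le_mul_right _ hn2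
    have h2 : (n + c + σ) * 2 ^ i = n * 2 ^ i + c * 2 ^ i + σ * 2 ^ i := by ring
    have h3 : (2 ^ l * (x + 1)) * 2 ^ i = 2 ^ (l + i) * (x + 1) := by rw [hpow]; ring
    omega
  have h3 := block_period hP1 hi1 hper hu1 hu2 hblock (n * 2 ^ i) h1 h2
  rw [← add_mul, mul_comm n, mul_comm (n + c), FF_two_pow h, FF_two_pow h] at h3
  exact h3

/-- one period for all levels, with slack one -/
theorem period_all (he : e = 1 ∨ e = 2) (h : Inv e f) {N : ℕ}
    (hN : ∀ u0, ∃ u u', u0 ≤ u ∧ u < u' ∧ u' ≤ u0 + N ∧ Rel f u u')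
    {x x' : ℕ} (hr : Rel f x x') (hx : x < x') :
    ∃ c, 1 ≤ c ∧ c ≤ N ∧ ∀ l n, 2 ^ l * x < n → n + c < 2 ^ l * (x + 1) →
      FF f n = FF f (n + c) := by
  classical
  by_contra hcon
  push Not at hcon
  have hcon' : ∀ c, ∃ l n, 1 ≤ c → c ≤ N → 2 ^ l * x < n ∧ n + c < 2 ^ l * (x + 1) ∧
      FF f n ≠ FF f (n + c) := by
    intro c
    by_cases hc : 1 ≤ c ∧ c ≤ N
    · obtain ⟨l, n, h1, h2, h3⟩ := hcon c hc.1 hc.2
      exact ⟨l, n, fun _ _ => ⟨h1, h2, h3⟩⟩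
    · exact ⟨0, 0, fun h1 h2 => absurd ⟨h1, h2⟩ hc⟩
  choose lc nc hlc using hcon'
  set σ := 2 * (x' + 1) with hσ
  obtain ⟨l, c, hl, hc1, hcN, hper⟩ := period_high he h hN hr hx
    ((Finset.range (N + 1)).sup lc + σ)
  have hlc' : lc c ≤ (Finset.range (N + 1)).sup lc :=
    Finset.le_sup (f := lc) (Finset.mem_range.2 (by omega))
  obtain ⟨k, hk⟩ : ∃ k, l = lc c + k := ⟨l - lc c, by omega⟩
  have hkσ : σ ≤ 2 ^ k := by
    have h1 : k < 2 ^ k := Nat.lt_two_pow_self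
    omega
  obtain ⟨h1, h2, h3⟩ := hlc c hc1 hcN
  apply h3
  have e1 : 2 ^ l = 2 ^ k * 2 ^ lc c := by rw [hk, pow_add]; ring
  have h4 : 2 ^ l * x + σ ≤ 2 ^ k * nc c := by
    have : 2 ^ k * (2 ^ lc c * x + 1) ≤ 2 ^ k * nc c := Nat.mul_le_mul_left _ h1
    have e2 : 2 ^ k * (2 ^ lc c * x + 1) = 2 ^ l * x + 2 ^ k := by rw [e1]; ring
    omega
  have h5 : 2 ^ k * nc c + 2 ^ k * c + σ ≤ 2 ^ l * (x + 1) := by
    have : 2 ^ k * (nc c + c + 1) ≤ 2 ^ k * (2 ^ lc c * (x + 1)) := Nat.mul_le_mul_left _ h2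
    have e2 : 2 ^ k * (nc c + c + 1) = 2 ^ k * nc c + 2 ^ k * c + 2 ^ k := by ring
    have e3 : 2 ^ k * (2 ^ lc c * (x + 1)) = 2 ^ l * (x + 1) := by rw [e1]; ring
    omega
  have h6 := congr_of_period (F := FF f) (A := 2 ^ l * x + σ)
    (B := 2 ^ l * (x + 1) - σ - c + 1) (P := c) (by
      intro w hw1 hw2
      refine hper w hw1 ?_
      omega) (2 ^ k * nc c) (2 ^ k) h4 (by omega)
  rw [← mul_add, FF_two_pow h, FF_two_pow h] at h6
  exact h6

/-- a uniform odd period, divisible by 3 -/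
theorem uniform_period (he : e = 1 ∨ e = 2) (h : Inv e f) (hfin : (ker2 f).Finite) :
    ∃ X0 M, 1 ≤ X0 ∧ Odd M ∧ 3 ∣ M ∧ ∀ x, X0 ≤ x → ∀ l n, 2 ^ l * x < n →
      n + M < 2 ^ l * (x + 1) → FF f n = FF f (n + M) := by
  obtain ⟨N, hN⟩ := pigeon hfin
  obtain ⟨X0, hX0, hpart⟩ := partner hfin
  obtain ⟨v, M, hM, hvM⟩ := Nat.exists_eq_two_pow_mul_odd (n := (N + 3).factorial)
    (Nat.factorial_ne_zero _)
  refine ⟨X0, M, hX0, hM, ?_, ?_⟩
  · have h1 : 3 ∣ (N + 3).factorial := Nat.dvd_factorial (by norm_num) (by omega)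
    rw [hvM] at h1
    exact Nat.Coprime.dvd_of_dvd_mul_left (Nat.Coprime.pow_right v (by norm_num)) h1
  · intro x hx l n h1 h2
    obtain ⟨x', hxx', hr⟩ := hpart x hx
    obtain ⟨c, hc1, hcN, hc⟩ := period_all he h hN hr hxx'
    obtain ⟨k, hk⟩ : c ∣ (N + 3).factorial := Nat.dvd_factorial (by omega) (by omega)
    have h3 : 2 ^ (l + v) * x < 2 ^ v * n := by
      have : 2 ^ v * (2 ^ l * x) < 2 ^ v * n := Nat.mul_lt_mul_of_pos_left h1 (by positivity)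
      calc 2 ^ (l + v) * x = 2 ^ v * (2 ^ l * x) := by rw [pow_add]; ring
        _ < _ := this
    have h4 : 2 ^ v * n + 2 ^ v * M < 2 ^ (l + v) * (x + 1) := by
      have : 2 ^ v * (n + M) < 2 ^ v * (2 ^ l * (x + 1)) :=
        Nat.mul_lt_mul_of_pos_left h2 (by positivity)
      calc 2 ^ v * n + 2 ^ v * M = 2 ^ v * (n + M) := by ring
        _ < _ := this
        _ = 2 ^ (l + v) * (x + 1) := by rw [pow_add]; ring
    have h5 : 2 ^ v * M = k * c := by rw [← hvM, hk, mul_comm]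
    have h6 := congr_of_period (F := FF f) (A := 2 ^ (l + v) * x + 1)
      (B := 2 ^ (l + v) * (x + 1) - c) (P := c) (by
        intro w hw1 hw2
        exact hc (l + v) w hw1 (by omega)) (2 ^ v * n) k h3 (by
          have : k * c < 2 ^ (l + v) * (x + 1) := by omega
          rw [← h5]
          rcases Nat.eq_zero_or_pos k with rfl | hk0
          · simp only [zero_mul] at h5
            have : 0 < 2 ^ v * M := Nat.mul_pos (by positivity) hM.pos
            omega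
          · have : c ≤ k * c := Nat.le_mul_of_pos_left _ hk0
            omega)
    rw [← h5, ← mul_add, FF_two_pow h, FF_two_pow h] at h6
    exact h6

end Pool.Agent.H966R2.Clz
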